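import Mathlib

/-!
# Geodesic nets in Euclidean spaces
-/

set_option autoImplicit false

open Finset Classical

namespace Pool.Agent.Y504.GN

/-- A geodesic net in the Euclidean space `ℝ^d` (for the plane, `d = 2`): a finite graph whose
vertices are points of `ℝ^d` and whose edges are non-degenerate straight segments of weight one,
embedded in the space. -/
structure GeodesicNet (d : ℕ) where
  /-- the vertices -/
  V : Finset (EuclideanSpace ℝ (Fin d))
  /-- `Adj a b` means that the segment `ab` is an edge -/
  Adj : EuclideanSpace ℝ (Fin d) → EuclideanSpace ℝ (Fin d) → Prop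
  symm : ∀ a b, Adj a b → Adj b a
  /-- edges join two distinct vertices -/
  edge_ends : ∀ a b, Adj a b → a ∈ V ∧ b ∈ V ∧ a ≠ b
  /-- two distinct edges meet only at a common endpoint -/
  edges_meet : ∀ a b c e, Adj a b → Adj c e → s(a, b) ≠ s(c, e) →
    ∀ z ∈ segment ℝ a b, z ∈ segment ℝ c e → (z = a ∨ z = b) ∧ (z = c ∨ z = e)
  /-- no vertex lies in the interior of an edge -/
  no_vertex_inside : ∀ a b, Adj a b → ∀ c ∈ V, c ∉ openSegment ℝ a b

namespace GeodesicNet

variable {d : ℕ} (G : GeodesicNet d)

/-- the vertices joined to `v` by an edge -/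
noncomputable def neighbors (v : EuclideanSpace ℝ (Fin d)) : Finset (EuclideanSpace ℝ (Fin d)) :=
  G.V.filter fun w => G.Adj v w

/-- the imbalance vector at `v`: the sum of the unit vectors at `v` along the edges at `v` -/
noncomputable def Imb (v : EuclideanSpace ℝ (Fin d)) : EuclideanSpace ℝ (Fin d) :=
  ∑ w ∈ G.neighbors v, ‖w - v‖⁻¹ • (w - v)

/-- the balanced vertices -/
noncomputable def balanced : Finset (EuclideanSpace ℝ (Fin d)) := G.V.filter fun v => G.Imb v = 0

/-- the unbalanced vertices -/
noncomputable def unbalanced : Finset (EuclideanSpace ℝ (Fin d)) := G.V.filter fun v => G.Imb v ≠ 0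

/-- the total imbalance: the sum of the imbalances `|Imb v|` of the unbalanced vertices -/
noncomputable def totalImbalance : ℝ := ∑ v ∈ G.unbalanced, ‖G.Imb v‖

/-- the convention of the question: every vertex has degree at least one, and every balanced vertex
has degree at least three -/
def Proper : Prop :=
  (∀ v ∈ G.V, 1 ≤ #(G.neighbors v)) ∧ ∀ v ∈ G.balanced, 3 ≤ #(G.neighbors v)

end GeodesicNet

end Pool.Agent.Y504.GN
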