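import Mathlib
import Pool.Agent.Helper971.BK.U8

/-!
# Local theorem for geodesic nets in a Euclidean space, in terms of systems of segments
-/

set_option autoImplicit false

open Finset Classical

namespace Pool.Agent.Y504.GN

open Pool.Agent.GNet

variable (E : Type*) [NormedAddCommGroup E] [InnerProductSpace ℝ E]

/-- The Euclidean geometry. -/
noncomputable def flat : Geom E where
  B := Set.univ
  G := fun _ => (innerSL ℝ : E →L[ℝ] E →L[ℝ] ℝ)
  G' := fun _ => 0
  A := fun _ _ => 0
  K := 1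
  conv := convex_univ
  one_le := le_refl _
  symm := fun x _ u v => real_inner_comm v u
  lower := fun x _ u => by
    have : (innerSL ℝ : E →L[ℝ] E →L[ℝ] ℝ) u u = ‖u‖ ^ 2 := real_inner_self_eq_norm_sq u
    rw [this, one_mul]
  upper := fun x _ u v => by
    have : |(inner ℝ u v : ℝ)| ≤ ‖u‖ * ‖v‖ := abs_real_inner_le_norm u v
    rw [one_mul]
    exact this
  deriv := fun x _ => hasFDerivAt_const _ _
  G'_le := fun x _ w u v => by
    simp only [zero_apply, abs_zero]
    positivity
  G'_lip := fun x _ y _ w u v => by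
    simp only [zero_apply, sub_zero, abs_zero]
    positivity
  A_le := fun x _ u _ => by simp
  A_lip := fun x _ y _ u v _ _ => by
    simp only [sub_zero, norm_zero]
    positivity

/-- A finite system of oriented segments in the space `E`, each one together with the reversed
segment, which meet only at end points; at every point of the open ball of radius `8` the sum of
the directions of the segments which start there vanishes. -/
structure SegSys where
  S : Type
  [fin : Fintype S]
  rev : S → S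
  P : S → E
  u : S → E
  ℓ : S → ℝ
  rev_rev : ∀ s, rev (rev s) = s
  P_rev : ∀ s, P (rev s) = P s + ℓ s • u s
  u_rev : ∀ s, u (rev s) = - u s
  ℓ_rev : ∀ s, ℓ (rev s) = ℓ s
  ℓ_pos : ∀ s, 0 < ℓ s
  unit : ∀ s, ‖u s‖ = 1
  emb : ∀ s s', ∀ t ∈ Set.Ioo 0 (ℓ s), ∀ t' ∈ Set.Icc 0 (ℓ s'),
    P s + t • u s = P s' + t' • u s' → s' = s ∨ s' = rev s
  bal : ∀ z ∈ Metric.ball (0 : E) 8, ∑ s with P s = z, u s = 0

attribute [instance] SegSys.fin

variable {E}

/-- total length -/
noncomputable def SegSys.length (N : SegSys E) : ℝ := ∑ s, N.ℓ s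

section

variable (N : SegSys E) (q : ℕ)

/-- start parameter of a piece -/
noncomputable def st (p : N.S × Fin q) : ℝ := p.2.1 * (N.ℓ p.1 / q)

/-- the reversed piece -/
def prev (p : N.S × Fin q) : N.S × Fin q := (N.rev p.1, Fin.rev p.2)

/-- the piece as a curve -/
noncomputable def px (p : N.S × Fin q) (s : ℝ) : E := N.P p.1 + (st N q p + s) • N.u p.1

variable {q}

theorem st_rev (hq : 0 < q) (p : N.S × Fin q) :
    st N q (prev N q p) = N.ℓ p.1 - st N q p - N.ℓ p.1 / q := by
  have h1 : ((Fin.rev p.2).1 : ℝ) = q - (p.2.1 + 1) := by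
    rw [Fin.val_rev]
    rw [Nat.cast_sub (by have := p.2.2; omega)]
    push_cast
    ring
  have hq' : (q : ℝ) ≠ 0 := by positivity
  simp only [st, prev, N.ℓ_rev]
  rw [h1]
  field_simp
  ring

theorem px_rev (hq : 0 < q) (p : N.S × Fin q) (s : ℝ) :
    px N q (prev N q p) s = px N q p (N.ℓ p.1 / q - s) := by
  simp only [px]
  rw [st_rev N hq]
  simp only [prev, N.P_rev, N.u_rev]
  rw [smul_neg, ← sub_eq_add_neg, add_sub_assoc, ← sub_smul]
  congr 2
  ring

theorem st_nonneg (hq : 0 < q) (p : N.S × Fin q) : 0 ≤ st N q p := by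
  have := N.ℓ_pos p.1
  unfold st
  positivity

theorem st_add_le (hq : 0 < q) (p : N.S × Fin q) : st N q p + N.ℓ p.1 / q ≤ N.ℓ p.1 := by
  have h1 := N.ℓ_pos p.1
  have h2 : ((p.2.1 : ℝ) + 1) ≤ q := by exact_mod_cast p.2.2
  have hq' : (0 : ℝ) < q := by positivity
  unfold st
  have : (p.2.1 : ℝ) * (N.ℓ p.1 / q) + N.ℓ p.1 / q = (p.2.1 + 1) * (N.ℓ p.1 / q) := by ring
  rw [this]
  calc ((p.2.1 : ℝ) + 1) * (N.ℓ p.1 / q) ≤ q * (N.ℓ p.1 / q) := by
        apply mul_le_mul_of_nonneg_right h2; positivity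
    _ = N.ℓ p.1 := by field_simp

theorem unit_smul_inj {u : E} (hu : ‖u‖ = 1) {a b : ℝ} (h : a • u = b • u) : a = b := by
  have hu0 : u ≠ 0 := by
    intro h0
    rw [h0, norm_zero] at hu
    exact zero_ne_one hu
  exact smul_left_injective ℝ hu0 h

theorem piece_eq (hq : 0 < q) {L : ℝ} (hL : 0 < L) {k k' : Fin q} {s t : ℝ}
    (hs : s ∈ Set.Ioo 0 (L / q)) (ht : t ∈ Set.Icc 0 (L / q))
    (h : (k.1 : ℝ) * (L / q) + s = (k'.1 : ℝ) * (L / q) + t) : k' = k ∧ t = s := by
  have hd : 0 < L / q := by positivity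
  set δ := L / q with hδ
  have h1 : k'.1 = k.1 := by
    by_contra hne
    rcases lt_or_gt_of_ne hne with h2 | h2
    · have h3 : (k'.1 : ℝ) + 1 ≤ k.1 := by exact_mod_cast h2
      have : (k'.1 : ℝ) * δ + δ ≤ k.1 * δ := by nlinarith
      linarith [hs.1, ht.2]
    · have h3 : (k.1 : ℝ) + 1 ≤ k'.1 := by exact_mod_cast h2
      have : (k.1 : ℝ) * δ + δ ≤ k'.1 * δ := by nlinarith
      linarith [hs.2, ht.1]
  have h2 : k' = k := Fin.ext h1
  subst h2
  exact ⟨rfl, by linarith⟩

/-- The balancing condition after subdivision. -/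
theorem sub_bal (hq : 0 < q) (z : E) (hz : z ∈ Metric.ball (0 : E) 8) :
    ∑ p : N.S × Fin q with px N q p 0 = z, N.u p.1 = 0 := by
  have hsplit : ∑ p : N.S × Fin q with px N q p 0 = z, N.u p.1
      = ∑ p : N.S × Fin q with (px N q p 0 = z ∧ p.2.1 = 0), N.u p.1
        + ∑ p : N.S × Fin q with (px N q p 0 = z ∧ ¬ p.2.1 = 0), N.u p.1 := by
    rw [← Finset.filter_filter, ← Finset.filter_filter]
    exact (Finset.sum_filter_add_sum_filter_not _ _ _).symm
  rw [hsplit]
  have h1 : ∑ p : N.S × Fin q with (px N q p 0 = z ∧ p.2.1 = 0), N.u p.1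
      = ∑ s with N.P s = z, N.u s := by
    refine Finset.sum_bij' (fun p _ => p.1) (fun s _ => (s, ⟨0, hq⟩)) ?_ ?_ ?_ ?_ ?_
    · rintro ⟨s, k⟩ hp
      rw [Finset.mem_filter] at hp ⊢
      obtain ⟨-, hp1, hp2⟩ := hp
      refine ⟨Finset.mem_univ _, ?_⟩
      simp only at hp2
      rw [← hp1]
      simp [px, st, hp2]
    · intro s hs
      rw [Finset.mem_filter] at hs ⊢
      refine ⟨Finset.mem_univ _, ?_, rfl⟩
      rw [← hs.2]
      simp [px, st]
    · rintro ⟨s, k⟩ hp
      rw [Finset.mem_filter] at hp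
      obtain ⟨-, hp1, hp2⟩ := hp
      simp only at hp2
      ext
      · rfl
      · simp [hp2]
    · intro s _
      rfl
    · intro p _
      rfl
  have h2 : ∑ p : N.S × Fin q with (px N q p 0 = z ∧ ¬ p.2.1 = 0), N.u p.1 = 0 := by
    -- the involution `(s, k) ↦ (rev s, q - k)`
    have hinv : ∀ p : N.S × Fin q, ¬ p.2.1 = 0 → q - p.2.1 < q := by
      intro p hp
      have := p.2.2
      omega
    let τ : (p : N.S × Fin q) → ¬ p.2.1 = 0 → N.S × Fin q := fun p hp =>
      (N.rev p.1, ⟨q - p.2.1, hinv p hp⟩)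
    have hτ0 : ∀ p hp, ¬ (τ p hp).2.1 = 0 := by
      intro p hp
      have := p.2.2
      simp only [τ]
      omega
    have hτp : ∀ p hp, px N q (τ p hp) 0 = px N q p 0 := by
      intro p hp
      have hq' : (q : ℝ) ≠ 0 := by positivity
      have hc : ((q - p.2.1 : ℕ) : ℝ) = q - p.2.1 := by
        rw [Nat.cast_sub (le_of_lt p.2.2)]
      simp only [px, st, τ, N.P_rev, N.u_rev, N.ℓ_rev, add_zero]
      rw [hc, smul_neg, ← sub_eq_add_neg, add_sub_assoc, ← sub_smul]
      congr 2
      field_simp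
      ring
    have hττ : ∀ p hp, τ (τ p hp) (hτ0 p hp) = p := by
      intro p hp
      have := p.2.2
      ext
      · simp only [τ, N.rev_rev]
      · simp only [τ]
        omega
    refine Finset.sum_involution (fun p hp => τ p (Finset.mem_filter.1 hp).2.2) ?_ ?_ ?_ ?_
    · intro p hp
      simp only [τ, N.u_rev]
      rw [add_neg_cancel]
    · intro p hp hne heq
      have h3 : N.u (N.rev p.1) = N.u p.1 := by
        have := congrArg (fun r : N.S × Fin q => N.u r.1) heq
        simpa [τ] using this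
      rw [N.u_rev] at h3
      apply hne
      have h4 : (2 : ℝ) • N.u p.1 = 0 := by
        rw [two_smul]
        nth_rewrite 1 [← h3]
        exact neg_add_cancel _
      exact (smul_eq_zero.1 h4).resolve_left two_ne_zero
    · intro p hp
      have hp' := (Finset.mem_filter.1 hp).2
      rw [Finset.mem_filter]
      exact ⟨Finset.mem_univ _, (hτp p hp'.2).trans hp'.1, hτ0 p hp'.2⟩
    · intro p hp
      exact hττ p (Finset.mem_filter.1 hp).2.2
  rw [h1, h2, add_zero]
  exact N.bal z hz

/-- The subdivided system as a local geodesic net. -/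
noncomputable def toNet (hq : 0 < q) : GeoNet (flat E) (0 : E) 1 where
  D := N.S × Fin q
  rev := prev N q
  len := fun p => N.ℓ p.1 / q
  x := px N q
  u := fun p _ => N.u p.1
  a := fun _ _ => 0
  rev_rev := fun p => by
    simp only [prev, N.rev_rev, Fin.rev_rev]
  len_pos := fun p => by
    have := N.ℓ_pos p.1
    positivity
  len_rev := fun p => by simp only [prev, N.ℓ_rev]
  x_rev := fun p s => px_rev N hq p s
  u_rev := fun p s => by simp only [prev, N.u_rev]
  hx := fun p s _ => by
    have h1 : HasDerivAt (fun s : ℝ => st N q p + s) 1 s := by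
      simpa using (hasDerivAt_id s).const_add (st N q p)
    have h2 := (h1.smul_const (N.u p.1)).const_add (N.P p.1)
    rw [one_smul] at h2
    exact h2
  hu := fun p s _ => hasDerivAt_const _ _
  ac := fun p => continuousOn_const
  u_le := fun p s _ => by
    show ‖N.u p.1‖ ≤ 1
    rw [N.unit]
  u_ge := fun p s _ => by
    show 1 ≤ 1 * ‖N.u p.1‖
    rw [N.unit, one_mul]
  a_le := fun p s _ => by
    show ‖(0 : E)‖ ≤ 1
    simp
  bal := fun z hz => sub_bal N hq z (by simpa using hz)
  geo := fun p s _ => rfl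
  unit := fun p s _ => by
    show (inner ℝ (N.u p.1) (N.u p.1) : ℝ) = 1
    rw [real_inner_self_eq_norm_sq, N.unit, one_pow]
  mem := fun p s _ => Set.mem_univ _
  emb := by
    rintro p p' s hs t ht h
    simp only [px] at h
    have hs1 : st N q p + s ∈ Set.Ioo 0 (N.ℓ p.1) := by
      have h1 := st_nonneg N hq p
      have h2 := st_add_le N hq p
      exact ⟨by linarith [hs.1], by linarith [hs.2]⟩
    have ht1 : st N q p' + t ∈ Set.Icc 0 (N.ℓ p'.1) := by
      have h1 := st_nonneg N hq p'
      have h2 := st_add_le N hq p'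
      exact ⟨by linarith [ht.1], by linarith [ht.2]⟩
    rcases N.emb p.1 p'.1 _ hs1 _ ht1 h with h3 | h3
    · left
      obtain ⟨s0, k⟩ := p
      obtain ⟨s0', k'⟩ := p'
      simp only at h3
      subst h3
      have h4 := unit_smul_inj (N.unit _) (add_left_cancel h)
      simp only [st] at h4
      obtain ⟨h5, h6⟩ := piece_eq hq (N.ℓ_pos _) hs ht h4
      exact ⟨by rw [h5], h6⟩
    · right
      -- compare with the reversed piece
      have h3' : p'.1 = (prev N q p).1 := h3
      have h5 : px N q p s = px N q (prev N q p) (N.ℓ p.1 / q - s) := by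
        rw [px_rev N hq]
        congr 1
        ring
      obtain ⟨s1, k1⟩ := p'
      have e1 : px N q (prev N q p) (N.ℓ p.1 / q - s) = px N q (s1, k1) t := by
        rw [← h5]
        exact h
      generalize hp1 : prev N q p = p1 at e1 h3' ⊢
      obtain ⟨s2, k2⟩ := p1
      simp only at h3'
      subst h3'
      have hℓ : N.ℓ s1 = N.ℓ p.1 := by
        have : s1 = N.rev p.1 := h3
        rw [this, N.ℓ_rev]
      simp only [px] at e1
      have h6 := unit_smul_inj (N.unit _) (add_left_cancel e1)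
      simp only [st, hℓ] at h6
      have hs' : N.ℓ p.1 / q - s ∈ Set.Ioo 0 (N.ℓ p.1 / q) := ⟨by linarith [hs.2], by linarith [hs.1]⟩
      have ht' : t ∈ Set.Icc 0 (N.ℓ p.1 / q) := by
        have := ht
        simp only [hℓ] at this
        exact this
      obtain ⟨h7, h8⟩ := piece_eq hq (N.ℓ_pos _) hs' ht' h6
      exact ⟨by rw [h7], h8⟩

end

/-- The local theorem for systems of segments. -/
theorem SegSys.bound [FiniteDimensional ℝ E] (L : ℝ) :
    ∃ B : ℕ, ∀ N : SegSys E, (∀ s, N.ℓ s ≤ 10) → N.length ≤ L → ∀ Z : Finset E,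
      (∀ z ∈ Z, z ∈ Metric.ball (0 : E) (1 / 2) ∧ 3 ≤ #(univ.filter fun s => N.P s = z)) →
      #Z ≤ B := by
  obtain ⟨r₀, hr₀, B, hB⟩ := GeoNet.main (flat E) (0 : E) one_pos L
  obtain ⟨q, hq⟩ := exists_nat_gt (10 / r₀)
  have hq0 : 0 < q := by
    have : (0 : ℝ) < q := lt_trans (by positivity) hq
    exact_mod_cast this
  have hqr : (0 : ℝ) < q := by exact_mod_cast hq0
  refine ⟨B, fun N hN hL Z hZ => ?_⟩
  have h1 := hB (toNet N hq0) (fun p => by
      show N.ℓ p.1 / q ≤ r₀
      rw [div_le_iff₀ hqr]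
      rw [div_lt_iff₀ hr₀] at hq
      linarith [hN p.1]) (by
      have : (toNet N hq0).length = N.length := by
        show ∑ p : N.S × Fin q, N.ℓ p.1 / q = ∑ s, N.ℓ s
        rw [Fintype.sum_prod_type]
        refine Finset.sum_congr rfl fun s _ => ?_
        simp only [Finset.sum_const, Finset.card_univ, Fintype.card_fin, nsmul_eq_mul]
        field_simp
      rw [this]
      exact hL)
  refine le_trans (Finset.card_le_card ?_) h1
  intro z hz
  obtain ⟨hz1, hz2⟩ := hZ z hz
  -- the darts starting at `z`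
  have hle : #(univ.filter fun s => N.P s = z) ≤ (toNet N hq0).deg z := by
    refine Finset.card_le_card_of_injOn (fun s => ((s, ⟨0, hq0⟩) : N.S × Fin q)) ?_ ?_
    · intro s hs
      have hs' := (Finset.mem_filter.1 (Finset.mem_coe.1 hs)).2
      refine Finset.mem_coe.2 (Finset.mem_filter.2 ⟨Finset.mem_univ _, ?_⟩)
      show px N q (s, ⟨0, hq0⟩) 0 = z
      rw [← hs']
      simp [px, st]
    · intro s _ s' _ h
      exact (Prod.mk.inj h).1
  rw [Finset.mem_filter]
  refine ⟨?_, hz1, hz2.trans hle⟩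
  have hpos : 0 < (toNet N hq0).deg z := lt_of_lt_of_le (by norm_num) (hz2.trans hle)
  obtain ⟨d, hd⟩ := Finset.card_pos.1 hpos
  exact Finset.mem_image.2 ⟨d, Finset.mem_univ _, (Finset.mem_filter.1 hd).2⟩

end Pool.Agent.Y504.GN
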