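import Mathlib
import Pool.Agent.Y504.GN.Defs
import Pool.Agent.Y504.GN.Flat

/-!
# Gromov's question on geodesic nets: the number of balanced vertices is bounded

At every unbalanced vertex we attach long edges which leave the space into new dimensions, such that
the vertex becomes balanced; then the local theorem of `Pool.Agent.Helper971.BK` applies.
-/

set_option autoImplicit false

open Finset Classical

namespace Pool.Agent.Y504.GN

section space

variable {A X : Type*} [NormedAddCommGroup A] [InnerProductSpace ℝ A]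
  [NormedAddCommGroup X] [InnerProductSpace ℝ X]

/-- a point of the product -/
noncomputable def mk (a : A) (x : X) : WithLp 2 (A × X) := WithLp.toLp 2 (a, x)

theorem mk_add (a b : A) (x y : X) : mk a x + mk b y = mk (a + b) (x + y) := rfl

theorem mk_neg (a : A) (x : X) : - mk a x = mk (-a) (-x) := rfl

theorem mk_smul (r : ℝ) (a : A) (x : X) : r • mk a x = mk (r • a) (r • x) := rfl

theorem mk_inj {a b : A} {x y : X} (h : mk a x = mk b y) : a = b ∧ x = y := by
  have := congrArg WithLp.ofLp h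
  exact Prod.mk.inj this

theorem mk_norm_sq (a : A) (x : X) : ‖mk a x‖ ^ 2 = ‖a‖ ^ 2 + ‖x‖ ^ 2 := by
  rw [WithLp.prod_norm_sq_eq_of_L2]
  rfl

theorem mk_norm_zero (a : A) : ‖mk a (0 : X)‖ = ‖a‖ := by
  have h := mk_norm_sq a (0 : X)
  rw [norm_zero, zero_pow two_ne_zero, add_zero] at h
  exact (sq_eq_sq₀ (norm_nonneg _) (norm_nonneg _)).1 h

theorem mk_zero_zero : mk (0 : A) (0 : X) = 0 := rfl

theorem mk_sum {ι : Type*} (s : Finset ι) (f : ι → A) :
    ∑ i ∈ s, mk (f i) (0 : X) = mk (∑ i ∈ s, f i) 0 := by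
  induction s using Finset.induction_on with
  | empty => rw [Finset.sum_empty, Finset.sum_empty, mk_zero_zero]
  | insert i s hi ih =>
    rw [Finset.sum_insert hi, Finset.sum_insert hi, ih, mk_add, add_zero]

end space

/-- sign -/
def sg (b : Bool) : ℝ := if b then 1 else -1

theorem sg_ne (b : Bool) : sg b ≠ 0 := by cases b <;> norm_num [sg]

theorem sg_sq (b : Bool) : sg b ^ 2 = 1 := by cases b <;> norm_num [sg]

theorem sg_eq {b c : Bool} {r s : ℝ} (hr : 0 < r) (hs : 0 ≤ s) (h : r * sg b = s * sg c) : c = b := by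
  cases b <;> cases c <;> simp_all [sg] <;> linarith

variable {d : ℕ} (G : GeodesicNet d)

/-- Euclidean space -/
abbrev E0 (d : ℕ) : Type := EuclideanSpace ℝ (Fin d)

/-- the oriented edges -/
noncomputable def EF : Finset (E0 d × E0 d) := (G.V ×ˢ G.V).filter fun p => G.Adj p.1 p.2

/-- unit vector -/
noncomputable def uv (p : E0 d × E0 d) : E0 d := ‖p.2 - p.1‖⁻¹ • (p.2 - p.1)

theorem uv_swap (p : E0 d × E0 d) : uv p.swap = - uv p := by
  unfold uv
  rw [Prod.fst_swap, Prod.snd_swap, ← smul_neg, neg_sub, norm_sub_rev]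

variable {G}

theorem mem_EF {p : E0 d × E0 d} : p ∈ EF G ↔ G.Adj p.1 p.2 := by
  unfold EF
  rw [Finset.mem_filter, Finset.mem_product]
  constructor
  · exact fun h => h.2
  · intro h
    obtain ⟨h1, h2, -⟩ := G.edge_ends _ _ h
    exact ⟨⟨h1, h2⟩, h⟩

theorem swap_mem_EF {p : E0 d × E0 d} (h : p ∈ EF G) : p.swap ∈ EF G :=
  mem_EF.2 (G.symm _ _ (mem_EF.1 h))

theorem EF_norm_pos {p : E0 d × E0 d} (h : p ∈ EF G) : 0 < ‖p.2 - p.1‖ := by
  obtain ⟨-, -, h3⟩ := G.edge_ends _ _ (mem_EF.1 h)
  exact norm_pos_iff.2 (sub_ne_zero.2 (Ne.symm h3))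

theorem uv_norm {p : E0 d × E0 d} (h : p ∈ EF G) : ‖uv p‖ = 1 := by
  unfold uv
  rw [norm_smul, norm_inv, norm_norm, inv_mul_cancel₀ (EF_norm_pos h).ne']

theorem sum_EF {M : Type*} [AddCommMonoid M] (f : E0 d × E0 d → M) :
    ∑ p ∈ EF G, f p = ∑ a ∈ G.V, ∑ b ∈ G.neighbors a, f (a, b) := by
  unfold EF GeodesicNet.neighbors
  rw [Finset.sum_filter, Finset.sum_product]
  refine Finset.sum_congr rfl fun a _ => ?_
  rw [Finset.sum_filter]

theorem Imb_eq (a : E0 d) : G.Imb a = ∑ b ∈ G.neighbors a, uv (a, b) := rfl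

variable (G)

/-- the total length of a net -/
theorem virial : ∑ p ∈ EF G, ‖p.2 - p.1‖ = -2 * ∑ a ∈ G.V, (inner ℝ (G.Imb a) a : ℝ) := by
  have h1 : ∀ p ∈ EF G, ‖p.2 - p.1‖ = (inner ℝ (uv p) p.2 : ℝ) - inner ℝ (uv p) p.1 := by
    intro p hp
    rw [← inner_sub_right]
    unfold uv
    rw [real_inner_smul_left, real_inner_self_eq_norm_sq]
    have := (EF_norm_pos hp).ne'
    field_simp
  have h2 : ∑ p ∈ EF G, (inner ℝ (uv p) p.2 : ℝ) = - ∑ p ∈ EF G, (inner ℝ (uv p) p.1 : ℝ) := by
    rw [← Finset.sum_neg_distrib]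
    refine Finset.sum_bij' (fun p _ => p.swap) (fun p _ => p.swap) ?_ ?_ ?_ ?_ ?_
    · exact fun p hp => swap_mem_EF hp
    · exact fun p hp => swap_mem_EF hp
    · exact fun p _ => Prod.swap_swap p
    · exact fun p _ => Prod.swap_swap p
    · intro p _
      rw [uv_swap, inner_neg_left, neg_neg, Prod.fst_swap]
  have h3 : ∑ p ∈ EF G, (inner ℝ (uv p) p.1 : ℝ) = ∑ a ∈ G.V, (inner ℝ (G.Imb a) a : ℝ) := by
    rw [sum_EF]
    refine Finset.sum_congr rfl fun a _ => ?_
    rw [Imb_eq, sum_inner]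
  rw [Finset.sum_congr rfl h1, Finset.sum_sub_distrib, h2, h3]
  ring

theorem sum_norm_Imb : ∑ a ∈ G.V, ‖G.Imb a‖ = G.totalImbalance := by
  unfold GeodesicNet.totalImbalance GeodesicNet.unbalanced
  rw [Finset.sum_filter]
  refine Finset.sum_congr rfl fun a _ => ?_
  by_cases h : G.Imb a = 0
  · simp [h]
  · simp [h]

theorem length_le {c r : ℝ} (hc : 0 ≤ c) (h : ∀ a ∈ G.V, c * ‖a‖ ≤ r) :
    c * ∑ p ∈ EF G, ‖p.2 - p.1‖ ≤ 2 * r * G.totalImbalance := by
  rw [virial, ← sum_norm_Imb]
  have h1 : ∀ a ∈ G.V, -(c * (inner ℝ (G.Imb a) a : ℝ)) ≤ r * ‖G.Imb a‖ := by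
    intro a ha
    have h2 : -(inner ℝ (G.Imb a) a : ℝ) ≤ ‖G.Imb a‖ * ‖a‖ :=
      (neg_le_abs _).trans (abs_real_inner_le_norm _ _)
    calc -(c * (inner ℝ (G.Imb a) a : ℝ)) = c * -(inner ℝ (G.Imb a) a : ℝ) := by ring
      _ ≤ c * (‖G.Imb a‖ * ‖a‖) := mul_le_mul_of_nonneg_left h2 hc
      _ = (c * ‖a‖) * ‖G.Imb a‖ := by ring
      _ ≤ r * ‖G.Imb a‖ := mul_le_mul_of_nonneg_right (h a ha) (norm_nonneg _)
  have h3 := Finset.sum_le_sum h1
  rw [Finset.sum_neg_distrib, ← Finset.mul_sum, ← Finset.mul_sum] at h3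
  linarith

section build

variable {n m : ℕ} (hm : 0 < m) (v : Fin n → E0 d) (hv : Function.Injective v)
  (hvU : ∀ a, a ∈ G.unbalanced ↔ ∃ i, v i = a) (hI : ∀ a ∈ G.V, ‖G.Imb a‖ < m)
  {c : ℝ} (hc : 0 < c) (hcV : ∀ a ∈ G.V, c * ‖a‖ ≤ 1 / 4)

/-- new dimensions -/
abbrev XX (n m : ℕ) : Type := EuclideanSpace ℝ (Fin n × Fin m)

/-- horizontal part of the new edges -/
noncomputable def hh (m : ℕ) (v : Fin n → E0 d) (i : Fin n) : E0 d :=
  (-(1 / (2 * (m : ℝ)))) • G.Imb (v i)

/-- vertical part of the new edges -/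
noncomputable def tt (m : ℕ) (v : Fin n → E0 d) (i : Fin n) : ℝ := √(1 - ‖hh G m v i‖ ^ 2)

/-- direction of a new edge -/
noncomputable def ww (m : ℕ) (v : Fin n → E0 d) (q : (Fin n × Fin m) × Bool) :
    WithLp 2 (E0 d × XX n m) :=
  mk (hh G m v q.1.1) ((sg q.2 * tt G m v q.1.1) • EuclideanSpace.single q.1 (1 : ℝ))

/-- start of a new edge -/
noncomputable def vv (m : ℕ) (v : Fin n → E0 d) (c : ℝ) (i : Fin n) : WithLp 2 (E0 d × XX n m) :=
  mk (c • v i) 0

include hm hvU hI in
theorem hh_norm (i : Fin n) : ‖hh G m v i‖ < 1 := by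
  have hi : v i ∈ G.V := (Finset.mem_filter.1 ((hvU (v i)).2 ⟨i, rfl⟩)).1
  have h1 := hI _ hi
  have hm' : (0 : ℝ) < m := by exact_mod_cast hm
  unfold hh
  rw [norm_smul, norm_neg, Real.norm_eq_abs, abs_of_pos (by positivity), one_div, inv_mul_lt_iff₀
    (by positivity)]
  linarith

include hm hvU hI in
theorem tt_pos (i : Fin n) : 0 < tt G m v i := by
  have := hh_norm G hm v hvU hI i
  unfold tt
  apply Real.sqrt_pos.2
  nlinarith [norm_nonneg (hh G m v i)]

include hm hvU hI in
theorem ww_norm (q : (Fin n × Fin m) × Bool) : ‖ww G m v q‖ = 1 := by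
  have h := hh_norm G hm v hvU hI q.1.1
  have h1 : ‖ww G m v q‖ ^ 2 = 1 := by
    unfold ww
    rw [mk_norm_sq, norm_smul, PiLp.norm_single, norm_one, mul_one, Real.norm_eq_abs,
      sq_abs, mul_pow, sg_sq, one_mul]
    unfold tt
    rw [Real.sq_sqrt (by nlinarith [norm_nonneg (hh G m v q.1.1)])]
    ring
  have h2 := norm_nonneg (ww G m v q)
  nlinarith [h1, h2]

/-- positions, directions and lengths of the segments -/
noncomputable def SP (m : ℕ) (v : Fin n → E0 d) (c : ℝ) :
    (EF G) ⊕ (((Fin n × Fin m) × Bool) × Bool) → WithLp 2 (E0 d × XX n m)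
  | Sum.inl p => mk (c • p.1.1) 0
  | Sum.inr (q, true) => vv m v c q.1.1
  | Sum.inr (q, false) => vv m v c q.1.1 + (10 : ℝ) • ww G m v q

/-- directions -/
noncomputable def SU (m : ℕ) (v : Fin n → E0 d) :
    (EF G) ⊕ (((Fin n × Fin m) × Bool) × Bool) → WithLp 2 (E0 d × XX n m)
  | Sum.inl p => mk (uv p.1) 0
  | Sum.inr (q, true) => ww G m v q
  | Sum.inr (q, false) => - ww G m v q

/-- lengths -/
noncomputable def SL (m n : ℕ) (c : ℝ) : (EF G) ⊕ (((Fin n × Fin m) × Bool) × Bool) → ℝ
  | Sum.inl p => c * ‖p.1.2 - p.1.1‖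
  | Sum.inr _ => 10

/-- reversal -/
noncomputable def SR (m n : ℕ) : (EF G) ⊕ (((Fin n × Fin m) × Bool) × Bool) →
    (EF G) ⊕ (((Fin n × Fin m) × Bool) × Bool)
  | Sum.inl p => Sum.inl ⟨p.1.swap, swap_mem_EF p.2⟩
  | Sum.inr (q, b) => Sum.inr (q, !b)

/-- every point of a new edge -/
theorem new_point (q : (Fin n × Fin m) × Bool) (b : Bool) (t : ℝ) :
    SP G m v c (Sum.inr (q, b)) + t • SU G m v (Sum.inr (q, b)) =
      mk (c • v q.1.1 + (if b then t else 10 - t) • hh G m v q.1.1)
        (((if b then t else 10 - t) * (sg q.2 * tt G m v q.1.1)) •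
          EuclideanSpace.single q.1 (1 : ℝ)) := by
  cases b
  · simp only [SP, SU, vv, ww, mk_neg, mk_smul, mk_add, Bool.false_eq_true, if_false, zero_add]
    congr 1
    · rw [smul_neg, sub_smul]
      abel
    · rw [smul_neg, sub_mul, sub_smul, smul_smul, smul_smul]
      abel
  · simp only [SP, SU, vv, ww, mk_smul, mk_add, if_true, zero_add, smul_smul]

theorem old_point (p : EF G) (t : ℝ) :
    SP G m v c (Sum.inl p) + t • SU G m v (Sum.inl p) = mk (c • p.1.1 + t • uv p.1) (0 : XX n m) := by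
  simp only [SP, SU, mk_smul, mk_add, smul_zero, zero_add]

theorem seg_point {p : E0 d × E0 d} (hp : p ∈ EF G) (hc : 0 < c) (t : ℝ) :
    c • p.1 + t • uv p = c • (AffineMap.lineMap p.1 p.2 (t / (c * ‖p.2 - p.1‖)) : E0 d) := by
  have h1 := (EF_norm_pos hp).ne'
  rw [AffineMap.lineMap_apply_module', smul_add, smul_smul, add_comm]
  congr 1
  unfold uv
  rw [smul_smul]
  congr 1
  field_simp

include hm hvU hI hc in
theorem emb_aux (s s' : (EF G) ⊕ (((Fin n × Fin m) × Bool) × Bool)) (t : ℝ)
    (ht : t ∈ Set.Ioo 0 (SL G m n c s)) (t' : ℝ) (ht' : t' ∈ Set.Icc 0 (SL G m n c s'))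
    (h : SP G m v c s + t • SU G m v s = SP G m v c s' + t' • SU G m v s') :
    s' = s ∨ s' = SR G m n s := by
  have htt := tt_pos G hm v hvU hI
  have hVi : ∀ i, v i ∈ G.V := fun i => (Finset.mem_filter.1 ((hvU (v i)).2 ⟨i, rfl⟩)).1
  have hne : ∀ (q : Fin n × Fin m) (r : ℝ), r • (EuclideanSpace.single q (1 : ℝ) : XX n m) = 0 →
      r = 0 := by
    intro q r hr
    have := congrArg (fun x : XX n m => x q) hr
    simpa using this
  rcases s with p | ⟨q, b⟩
  · rw [old_point] at h
    have hp := p.2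
    have hlen := EF_norm_pos hp
    have hz : (AffineMap.lineMap p.1.1 p.1.2 (t / (c * ‖p.1.2 - p.1.1‖)) : E0 d) ∈
        openSegment ℝ p.1.1 p.1.2 := by
      rw [openSegment_eq_image_lineMap]
      refine ⟨_, ⟨?_, ?_⟩, rfl⟩
      · have := ht.1; positivity
      · rw [div_lt_one (by positivity)]; exact ht.2
    rcases s' with p' | ⟨q', b'⟩
    · rw [old_point] at h
      have hp' := p'.2
      have hlen' := EF_norm_pos hp'
      obtain ⟨h1, -⟩ := mk_inj h
      rw [seg_point G hp hc, seg_point G hp' hc] at h1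
      have h2 := smul_right_injective _ hc.ne' h1
      have hz' : (AffineMap.lineMap p'.1.1 p'.1.2 (t' / (c * ‖p'.1.2 - p'.1.1‖)) : E0 d) ∈
          segment ℝ p'.1.1 p'.1.2 := by
        rw [segment_eq_image_lineMap]
        refine ⟨_, ⟨?_, ?_⟩, rfl⟩
        · have := ht'.1; positivity
        · rw [div_le_one (by positivity)]; exact ht'.2
      have h3 : s(p.1.1, p.1.2) = s(p'.1.1, p'.1.2) := by
        by_contra hne'
        have h4 := (G.edges_meet _ _ _ _ (mem_EF.1 hp) (mem_EF.1 hp') hne' _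
          (openSegment_subset_segment ℝ _ _ hz) (by
            have h2' := h2
            beta_reduce at h2'
            rw [h2']; exact hz')).1
        obtain ⟨h5, h6, -⟩ := G.edge_ends _ _ (mem_EF.1 hp)
        rcases h4 with h4 | h4
        · rw [h4] at hz
          exact G.no_vertex_inside _ _ (mem_EF.1 hp) _ h5 hz
        · rw [h4] at hz
          exact G.no_vertex_inside _ _ (mem_EF.1 hp) _ h6 hz
      rw [Sym2.eq_iff] at h3
      rcases h3 with ⟨h4, h5⟩ | ⟨h4, h5⟩
      · left
        congr 1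
        exact Subtype.ext (Prod.ext h4.symm h5.symm)
      · right
        simp only [SR]
        congr 1
        exact Subtype.ext (Prod.ext h5.symm h4.symm)
    · exfalso
      rw [new_point] at h
      obtain ⟨h1, h2⟩ := mk_inj h
      have h3 := hne _ _ h2.symm
      have h4 : (if b' then t' else 10 - t') = 0 := by
        rcases mul_eq_zero.1 h3 with h5 | h5
        · exact h5
        · exact absurd h5 (mul_ne_zero (sg_ne _) (htt _).ne')
      rw [h4, zero_smul, add_zero, seg_point G hp hc] at h1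
      have h2 := smul_right_injective _ hc.ne' h1
      beta_reduce at h2
      rw [h2] at hz
      exact G.no_vertex_inside _ _ (mem_EF.1 hp) _ (hVi _) hz
  · rw [new_point] at h
    have ht1 : 0 < (if b then t else 10 - t) := by
      have h1 := ht.1
      have h2 := ht.2
      simp only [SL] at h2
      split_ifs
      · exact h1
      · linarith
    rcases s' with p' | ⟨q', b'⟩
    · exfalso
      rw [old_point] at h
      obtain ⟨-, h2⟩ := mk_inj h
      have h3 := hne _ _ h2
      exact absurd h3 (mul_ne_zero ht1.ne' (mul_ne_zero (sg_ne _) (htt _).ne'))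
    · rw [new_point] at h
      have ht2 : 0 ≤ (if b' then t' else 10 - t') := by
        have h1 := ht'.1
        have h2 := ht'.2
        simp only [SL] at h2
        split_ifs
        · exact h1
        · linarith
      obtain ⟨-, h2⟩ := mk_inj h
      generalize (if b then t else 10 - t) = r1 at h2 ht1
      generalize (if b' then t' else 10 - t') = r2 at h2 ht2
      have hq : q.1 = q'.1 := by
        by_contra hne'
        have h3 := congrArg (fun x : XX n m => x q.1) h2
        beta_reduce at h3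
        rw [PiLp.smul_apply, PiLp.smul_apply, PiLp.single_apply, PiLp.single_apply, if_pos rfl,
          if_neg hne', smul_zero, smul_eq_mul, mul_one] at h3
        exact absurd h3 (mul_ne_zero ht1.ne' (mul_ne_zero (sg_ne _) (htt _).ne'))
      have h3 := congrArg (fun x : XX n m => x q.1) h2
      beta_reduce at h3
      rw [PiLp.smul_apply, PiLp.smul_apply, PiLp.single_apply, PiLp.single_apply, if_pos rfl,
        if_pos hq, smul_eq_mul, smul_eq_mul, mul_one, mul_one, ← hq] at h3
      have h4 : r1 * sg q.2 = r2 * sg q'.2 := by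
        have h5 := (htt q.1.1).ne'
        rw [← mul_assoc, ← mul_assoc] at h3
        exact mul_right_cancel₀ h5 h3
      have h5 := sg_eq ht1 ht2 h4
      have h6 : q' = q := Prod.ext hq.symm h5
      subst h6
      simp only [SR]
      cases b <;> cases b' <;> simp

include hm hvU hI hv hc hcV in
theorem bal_aux (z : WithLp 2 (E0 d × XX n m)) (hz : z ∈ Metric.ball 0 8) :
    ∑ s with SP G m v c s = z, SU G m v s = 0 := by
  have hVi : ∀ i, v i ∈ G.V := fun i => (Finset.mem_filter.1 ((hvU (v i)).2 ⟨i, rfl⟩)).1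
  have hm' : (0 : ℝ) < m := by exact_mod_cast hm
  rw [Finset.sum_filter, Fintype.sum_sum_type]
  -- the old edges
  have h1 : ∑ p : EF G, (if SP G m v c (Sum.inl p) = z then SU G m v (Sum.inl p) else 0) =
      ∑ a ∈ G.V, if mk (c • a) (0 : XX n m) = z then mk (G.Imb a) (0 : XX n m) else 0 := by
    have e1 : ∑ p : EF G, (if SP G m v c (Sum.inl p) = z then SU G m v (Sum.inl p) else 0) =
        ∑ p ∈ EF G, (if mk (c • p.1) (0 : XX n m) = z then mk (uv p) 0 else 0) :=
      Finset.sum_coe_sort (EF G)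
        (fun p => (if mk (c • p.1) (0 : XX n m) = z then mk (uv p) (0 : XX n m) else 0))
    rw [e1, sum_EF]
    refine Finset.sum_congr rfl fun a _ => ?_
    simp only
    split_ifs with h
    · rw [mk_sum, Imb_eq]
    · exact Finset.sum_const_zero
  -- the new edges
  have h2 : ∑ q : (((Fin n × Fin m) × Bool) × Bool),
      (if SP G m v c (Sum.inr q) = z then SU G m v (Sum.inr q) else 0) =
      ∑ i : Fin n, if mk (c • v i) (0 : XX n m) = z then - mk (G.Imb (v i)) (0 : XX n m) else 0 := by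
    rw [Fintype.sum_prod_type]
    have e1 : ∀ q : (Fin n × Fin m) × Bool, ∑ b : Bool,
        (if SP G m v c (Sum.inr (q, b)) = z then SU G m v (Sum.inr (q, b)) else 0) =
        if mk (c • v q.1.1) (0 : XX n m) = z then ww G m v q else 0 := by
      intro q
      rw [Fintype.sum_bool]
      have hfar : SP G m v c (Sum.inr (q, false)) ≠ z := by
        intro h
        rw [Metric.mem_ball, dist_zero_right, ← h] at hz
        have h3 : ‖(10 : ℝ) • ww G m v q‖ = 10 := by
          rw [norm_smul, ww_norm G hm v hvU hI, mul_one]; norm_num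
        have h4 : ‖vv m v c q.1.1‖ ≤ 1 / 4 := by
          unfold vv
          rw [mk_norm_zero, norm_smul, Real.norm_eq_abs, abs_of_pos hc]
          exact hcV _ (hVi _)
        have h5 : ‖(10 : ℝ) • ww G m v q‖ ≤ ‖vv m v c q.1.1 + (10 : ℝ) • ww G m v q‖
            + ‖vv m v c q.1.1‖ := by
          have := norm_sub_le (vv m v c q.1.1 + (10 : ℝ) • ww G m v q) (vv m v c q.1.1)
          rwa [add_sub_cancel_left] at this
        simp only [SP] at hz
        linarith
      rw [if_neg hfar, add_zero]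
      rfl
    rw [Finset.sum_congr rfl fun q _ => e1 q, Fintype.sum_prod_type, Fintype.sum_prod_type]
    refine Finset.sum_congr rfl fun i _ => ?_
    simp only [Fintype.sum_bool]
    split_ifs with h
    · have e2 : ∀ j : Fin m, ww G m v ((i, j), true) + ww G m v ((i, j), false) =
          mk ((-(1 / (m : ℝ))) • G.Imb (v i)) 0 := by
        intro j
        simp only [ww, sg, mk_add, if_true, Bool.false_eq_true, if_false, ← add_smul]
        congr 1
        · unfold hh
          rw [← add_smul]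
          congr 1
          field_simp
          norm_num
        · rw [show (1 * tt G m v i + -1 * tt G m v i) = 0 by ring, zero_smul]
      rw [Finset.sum_congr rfl fun j _ => e2 j, Finset.sum_const, Finset.card_univ,
        Fintype.card_fin, ← Nat.cast_smul_eq_nsmul ℝ, mk_smul, smul_zero, smul_smul, mk_neg,
        neg_zero]
      congr 1
      rw [show (m : ℝ) * -(1 / (m : ℝ)) = -1 by field_simp, neg_one_smul]
    · simp
  rw [h1, h2]
  -- combine
  have h3 : ∑ i : Fin n, (if mk (c • v i) (0 : XX n m) = z then - mk (G.Imb (v i)) (0 : XX n m) else 0) =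
      ∑ a ∈ G.unbalanced, (if mk (c • a) (0 : XX n m) = z then - mk (G.Imb a) (0 : XX n m) else 0) := by
    refine Finset.sum_bij (fun i _ => v i) ?_ ?_ ?_ ?_
    · intro i _
      exact (hvU _).2 ⟨i, rfl⟩
    · intro i _ j _ hij
      exact hv hij
    · intro a ha
      obtain ⟨i, hi⟩ := (hvU a).1 ha
      exact ⟨i, Finset.mem_univ _, hi⟩
    · intro i _
      rfl
  have h4 : ∑ a ∈ G.unbalanced, (if mk (c • a) (0 : XX n m) = z then - mk (G.Imb a) (0 : XX n m) else 0) =
      ∑ a ∈ G.V, (if mk (c • a) (0 : XX n m) = z then - mk (G.Imb a) (0 : XX n m) else 0) := by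
    unfold GeodesicNet.unbalanced
    rw [Finset.sum_filter]
    refine Finset.sum_congr rfl fun a _ => ?_
    by_cases h : G.Imb a = 0
    · rw [h, mk_zero_zero]
      simp
    · rw [if_pos h]
  rw [h3, h4, ← Finset.sum_add_distrib]
  refine Finset.sum_eq_zero fun a _ => ?_
  split_ifs
  · exact add_neg_cancel _
  · exact add_zero _

/-- the enlarged net -/
noncomputable def sys : SegSys (WithLp 2 (E0 d × XX n m)) where
  S := (EF G) ⊕ (((Fin n × Fin m) × Bool) × Bool)
  rev := SR G m n
  P := SP G m v c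
  u := SU G m v
  ℓ := SL G m n c
  rev_rev := by
    rintro (p | ⟨q, b⟩)
    · simp only [SR, Prod.swap_swap]
    · simp only [SR, Bool.not_not]
  P_rev := by
    rintro (p | ⟨q, b⟩)
    · simp only [SR, SP, SL, SU, mk_smul, mk_add, smul_zero, add_zero, Prod.fst_swap]
      congr 1
      have := (EF_norm_pos p.2).ne'
      unfold uv
      rw [smul_smul, mul_assoc, mul_inv_cancel₀ this, mul_one, smul_sub]
      abel
    · cases b
      · simp only [SR, SP, SL, SU, Bool.not_false, smul_neg]
        abel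
      · simp only [SR, SP, SL, SU, Bool.not_true]
  u_rev := by
    rintro (p | ⟨q, b⟩)
    · simp only [SR, SU, uv_swap, mk_neg, neg_zero]
    · cases b
      · simp only [SR, SU, Bool.not_false, neg_neg]
      · simp only [SR, SU, Bool.not_true]
  ℓ_rev := by
    rintro (p | ⟨q, b⟩)
    · simp only [SR, SL, Prod.fst_swap, Prod.snd_swap, norm_sub_rev]
    · simp only [SR, SL]
  ℓ_pos := by
    rintro (p | ⟨q, b⟩)
    · have := EF_norm_pos p.2
      simp only [SL]
      positivity
    · norm_num [SL]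
  unit := by
    rintro (p | ⟨q, b⟩)
    · simp only [SU, mk_norm_zero, uv_norm p.2]
    · cases b
      · simp only [SU, norm_neg, ww_norm G hm v hvU hI]
      · simp only [SU, ww_norm G hm v hvU hI]
  emb := fun s s' t ht t' ht' h => emb_aux G hm v hvU hI hc s s' t ht t' ht' h
  bal := fun z hz => by
    have h := bal_aux G hm v hv hvU hI hc hcV z hz
    convert h

end build

/-- **Gromov's question.** The number of balanced vertices of a geodesic net in `ℝ^d` is bounded in
terms of the number of unbalanced vertices and of the total imbalance. -/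
theorem main (d n : ℕ) (I : ℝ) : ∃ B : ℕ, ∀ G : GeodesicNet d, G.Proper → #G.unbalanced = n →
    G.totalImbalance ≤ I → #G.balanced ≤ B := by
  obtain ⟨m, hm⟩ := exists_nat_gt (max I 0)
  have hm0 : 0 < m := by
    have : (0 : ℝ) < m := lt_of_le_of_lt (le_max_right _ _) hm
    exact_mod_cast this
  obtain ⟨B, hB⟩ := SegSys.bound (E := WithLp 2 (E0 d × XX n m)) (max I 0 / 2 + 40 * (n * m))
  refine ⟨B, fun G hG hn hI => ?_⟩
  -- enumeration of the unbalanced vertices
  obtain ⟨e⟩ : Nonempty (Fin n ≃ G.unbalanced) := by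
    rw [← hn]
    exact ⟨(Finset.equivFin G.unbalanced).symm⟩
  let v : Fin n → E0 d := fun i => (e i).1
  have hv : Function.Injective v := Subtype.val_injective.comp e.injective
  have hvU : ∀ a, a ∈ G.unbalanced ↔ ∃ i, v i = a := by
    intro a
    constructor
    · intro ha
      exact ⟨e.symm ⟨a, ha⟩, by simp [v]⟩
    · rintro ⟨i, rfl⟩
      exact (e i).2
  have hImb : ∀ a ∈ G.V, ‖G.Imb a‖ < m := by
    intro a ha
    have h1 : ‖G.Imb a‖ ≤ G.totalImbalance := by
      rw [← sum_norm_Imb]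
      exact Finset.single_le_sum (f := fun a => ‖G.Imb a‖) (fun _ _ => norm_nonneg _) ha
    exact lt_of_le_of_lt (h1.trans (hI.trans (le_max_left _ _))) hm
  -- scaling
  obtain ⟨ρ, hρ⟩ : ∃ ρ : ℝ, ρ = ∑ a ∈ G.V, ‖a‖ + 1 := ⟨_, rfl⟩
  have hρ0 : 0 < ρ := by
    have : 0 ≤ ∑ a ∈ G.V, ‖a‖ := Finset.sum_nonneg fun _ _ => norm_nonneg _
    linarith
  have hc : 0 < 1 / (4 * ρ) := by positivity
  have hcV : ∀ a ∈ G.V, 1 / (4 * ρ) * ‖a‖ ≤ 1 / 4 := by
    intro a ha
    have h1 : ‖a‖ ≤ ρ := by
      have := Finset.single_le_sum (f := fun a : E0 d => ‖a‖) (fun _ _ => norm_nonneg _) ha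
      linarith
    rw [one_div_mul_eq_div, div_le_div_iff₀ (by positivity) (by norm_num)]
    linarith
  have hdiam : ∀ p ∈ EF G, 1 / (4 * ρ) * ‖p.2 - p.1‖ ≤ 10 := by
    intro p hp
    obtain ⟨h1, h2, -⟩ := G.edge_ends _ _ (mem_EF.1 hp)
    have h3 := hcV _ h1
    have h4 := hcV _ h2
    have h5 := norm_sub_le p.2 p.1
    have h6 := mul_le_mul_of_nonneg_left h5 hc.le
    rw [mul_add] at h6
    linarith
  have hlen := length_le G hc.le hcV
  have key := hB (sys G hm0 v hv hvU hImb hc hcV) (by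
      rintro (p | q)
      · exact hdiam p.1 p.2
      · exact le_refl _) (by
      show ∑ s : (EF G) ⊕ (((Fin n × Fin m) × Bool) × Bool), SL G m n (1 / (4 * ρ)) s ≤ _
      rw [Fintype.sum_sum_type]
      have e1 : ∑ p : EF G, SL G m n (1 / (4 * ρ)) (Sum.inl p) =
          1 / (4 * ρ) * ∑ p ∈ EF G, ‖p.2 - p.1‖ := by
        rw [Finset.mul_sum]
        exact Finset.sum_coe_sort (EF G) (fun p => 1 / (4 * ρ) * ‖p.2 - p.1‖)
      have e2 : ∑ q : (((Fin n × Fin m) × Bool) × Bool), SL G m n (1 / (4 * ρ)) (Sum.inr q) =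
          40 * (n * m) := by
        simp only [SL, Finset.sum_const, Finset.card_univ, Fintype.card_prod, Fintype.card_fin,
          Fintype.card_bool, nsmul_eq_mul]
        push_cast
        ring
      rw [e1, e2]
      have e3 : G.totalImbalance ≤ max I 0 := hI.trans (le_max_left _ _)
      linarith) (G.balanced.image fun a => mk ((1 / (4 * ρ)) • a) (0 : XX n m)) (by
      intro z hz
      obtain ⟨a, ha, rfl⟩ := Finset.mem_image.1 hz
      have haV : a ∈ G.V := (Finset.mem_filter.1 ha).1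
      constructor
      · rw [Metric.mem_ball, dist_zero_right, mk_norm_zero, norm_smul, Real.norm_eq_abs,
          abs_of_pos hc]
        have := hcV a haV
        linarith
      · refine (hG.2 a ha).trans ?_
        let f : (EF G) ⊕ (((Fin n × Fin m) × Bool) × Bool) → E0 d := fun s =>
          match s with
          | Sum.inl p => p.1.2
          | Sum.inr _ => 0
        refine Finset.card_le_card_of_surjOn f ?_
        intro b hb
        have hb' : (a, b) ∈ EF G := mem_EF.2 (Finset.mem_filter.1 (Finset.mem_coe.1 hb)).2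
        refine ⟨Sum.inl ⟨(a, b), hb'⟩, ?_, rfl⟩
        simp only [Finset.coe_filter, Finset.mem_univ, true_and, Set.mem_setOf_eq]
        rfl)
  rw [Finset.card_image_of_injective] at key
  · exact key
  · intro a b hab
    exact smul_right_injective _ hc.ne' (mk_inj hab).1

end Pool.Agent.Y504.GN
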